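import Mathlib

/-!
# Generalized triangle groups with finitely many alternating quotients
-/

set_option autoImplicit false

namespace Pool.Agent.Results.MP_73c65d_al.OnlyFive

/-- The value of the word `u(x, y, z)` at `(a, b, c)`. -/
def ev {G : Type} [Group G] (a b c : G) : FreeGroup (Fin 3) →* G := FreeGroup.lift ![a, b, c]

/-- `n` is admissible for `p, q, r, u`: `A_n` is generated by `ξ, η, ζ` with
`ξ^p = η^q = ζ^r = ξ η ζ u(ξ, η, ζ) = 1`. -/
def Admissible (p q r : ℕ) (u : FreeGroup (Fin 3)) (n : ℕ) : Prop :=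
  3 ≤ n ∧ ∃ ξ η ζ : alternatingGroup (Fin n), Subgroup.closure {ξ, η, ζ} = ⊤ ∧
    ξ ^ p = 1 ∧ η ^ q = 1 ∧ ζ ^ r = 1 ∧ ξ * η * ζ * ev ξ η ζ u = 1

/-- The normal closure of `x^2`, `y^3`, `z^5` in the free group `F(x, y, z)`. -/
def N235 : Subgroup (FreeGroup (Fin 3)) :=
  Subgroup.normalClosure {FreeGroup.of 0 ^ 2, FreeGroup.of 1 ^ 3, FreeGroup.of 2 ^ 5}

theorem ev_eq_one {G : Type} [Group G] {a b c : G} (ha : a ^ 2 = 1) (hb : b ^ 3 = 1)
    (hc : c ^ 5 = 1) {u : FreeGroup (Fin 3)} (hu : u ∈ N235) : ev a b c u = 1 := by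
  have : N235 ≤ (ev a b c).ker := by
    apply Subgroup.normalClosure_le_normal
    rintro w (rfl | rfl | rfl)
    · show ev a b c _ = 1
      simpa [ev] using ha
    · show ev a b c _ = 1
      simpa [ev] using hb
    · show ev a b c _ = 1
      simpa [ev] using hc
  exact this hu

/-- A group generated by `x`, `y` with `x^2 = y^3 = (y x)^5 = 1` has at most 60 elements. -/
theorem card_le {G : Type} [Group G] [Finite G] {x y : G} (hgen : Subgroup.closure {x, y} = ⊤)
    (hx : x ^ 2 = 1) (hy : y ^ 3 = 1) (hz : (y * x) ^ 5 = 1) : Nat.card G ≤ 60 := by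
  set H := Subgroup.zpowers (y * x) with hH
  have cH : Nat.card H ≤ 5 := by
    rw [hH, Nat.card_zpowers]
    exact orderOf_le_of_pow_eq_one (by norm_num) hz
  let p0 : G ⧸ H := QuotientGroup.mk 1
  have xx : ∀ q : G ⧸ H, x • x • q = q := by
    intro q; rw [smul_smul, ← pow_two, hx, one_smul]
  have yyy : ∀ q : G ⧸ H, y • y • y • q = q := by
    intro q
    rw [smul_smul, smul_smul]
    have : y * y * y = 1 := by rw [← hy, pow_succ, pow_two]
    rw [this, one_smul]
  have zz : ∀ q : G ⧸ H, y • x • y • x • y • x • y • x • y • x • q = q := by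
    intro q
    simp only [smul_smul]
    have : y * x * y * x * y * x * y * x * y * x = 1 := by
      rw [← hz]; simp only [pow_succ, pow_zero, one_mul, mul_assoc]
    simp only [← mul_assoc]
    rw [this, one_smul]
  have h0 : y • x • p0 = p0 := by
    rw [smul_smul]
    show (QuotientGroup.mk (y * x * 1) : G ⧸ H) = QuotientGroup.mk 1
    rw [mul_one, QuotientGroup.eq]
    rw [mul_one]
    exact inv_mem (Subgroup.mem_zpowers _)
  -- the points
  obtain ⟨p1, hp1⟩ : ∃ p, p = y • p0 := ⟨_, rfl⟩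
  obtain ⟨p2, hp2⟩ : ∃ p, p = y • p1 := ⟨_, rfl⟩
  obtain ⟨r0, hr0⟩ : ∃ p, p = x • p1 := ⟨_, rfl⟩
  obtain ⟨r1, hr1⟩ : ∃ p, p = y • r0 := ⟨_, rfl⟩
  obtain ⟨r2, hr2⟩ : ∃ p, p = y • r1 := ⟨_, rfl⟩
  obtain ⟨s0, hs0⟩ : ∃ p, p = x • r1 := ⟨_, rfl⟩
  obtain ⟨s1, hs1⟩ : ∃ p, p = y • s0 := ⟨_, rfl⟩
  obtain ⟨s2, hs2⟩ : ∃ p, p = y • s1 := ⟨_, rfl⟩
  obtain ⟨t0, ht0⟩ : ∃ p, p = x • s2 := ⟨_, rfl⟩
  obtain ⟨t1, ht1⟩ : ∃ p, p = y • t0 := ⟨_, rfl⟩
  obtain ⟨t2, ht2⟩ : ∃ p, p = y • t1 := ⟨_, rfl⟩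
  have yp2 : y • p2 = p0 := by rw [hp2, hp1, yyy]
  have yr2 : y • r2 = r0 := by rw [hr2, hr1, yyy]
  have ys2 : y • s2 = s0 := by rw [hs2, hs1, yyy]
  have yt2 : y • t2 = t0 := by rw [ht2, ht1, yyy]
  have inj : ∀ q q' : G ⧸ H, y • q = y • q' → q = q' := by
    intro q q' h
    have := congrArg (fun z => y • y • z) h
    simpa [yyy] using this
  have xp0 : x • p0 = p2 := inj _ _ (by rw [h0, yp2])
  have xp2 : x • p2 = p0 := by rw [← xp0, xx]
  have xp1 : x • p1 = r0 := hr0.symm
  have xr0 : x • r0 = p1 := by rw [hr0, xx]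
  have xr1 : x • r1 = s0 := hs0.symm
  have xs0 : x • s0 = r1 := by rw [hs0, xx]
  have xs2 : x • s2 = t0 := ht0.symm
  have xt0 : x • t0 = s2 := by rw [ht0, xx]
  -- the first 5-cycle, through r0
  have xs1 : x • s1 = r2 := by
    apply inj
    have h := zz r0
    rw [xr0, ← hp2, xp2, ← hp1, xp1, ← hr1, xr1, ← hs1] at h
    rw [h, yr2]
  have xr2 : x • r2 = s1 := by rw [← xs1, xx]
  have xt1 : x • t1 = t2 := by
    apply inj
    have h := zz t0
    rw [xt0, ys2, xs0, ← hr2, xr2, ← hs2, xs2, ← ht1] at h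
    rw [h, yt2]
  have xt2 : x • t2 = t1 := by rw [← xt1, xx]
  let P : Finset (G ⧸ H) := by
    classical exact {p0, p1, p2, r0, r1, r2, s0, s1, s2, t0, t1, t2}
  have hP : ∀ q, q ∈ P ↔ q = p0 ∨ q = p1 ∨ q = p2 ∨ q = r0 ∨ q = r1 ∨ q = r2 ∨ q = s0 ∨ q = s1 ∨
      q = s2 ∨ q = t0 ∨ q = t1 ∨ q = t2 := by
    intro q; simp [P]
  have hPx : ∀ q ∈ P, x • q ∈ P := by
    intro q hq
    rw [hP] at hq ⊢
    rcases hq with rfl | rfl | rfl | rfl | rfl | rfl | rfl | rfl | rfl | rfl | rfl | rfl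
    · simp [xp0]
    · simp [xp1]
    · simp [xp2]
    · simp [xr0]
    · simp [xr1]
    · simp [xr2]
    · simp [xs0]
    · simp [xs1]
    · simp [xs2]
    · simp [xt0]
    · simp [xt1]
    · simp [xt2]
  have hPy : ∀ q ∈ P, y • q ∈ P := by
    intro q hq
    rw [hP] at hq ⊢
    rcases hq with rfl | rfl | rfl | rfl | rfl | rfl | rfl | rfl | rfl | rfl | rfl | rfl
    · simp [← hp1]
    · simp [← hp2]
    · simp [yp2]
    · simp [← hr1]
    · simp [← hr2]
    · simp [yr2]
    · simp [← hs1]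
    · simp [← hs2]
    · simp [ys2]
    · simp [← ht1]
    · simp [← ht2]
    · simp [yt2]
  have xi : x⁻¹ = x := by
    rw [inv_eq_iff_mul_eq_one, ← pow_two, hx]
  have yi : y⁻¹ = y * y := by
    rw [inv_eq_iff_mul_eq_one, ← hy, pow_succ', pow_two]
  have hall : ∀ g : G, ∀ q ∈ P, g • q ∈ P := by
    intro g
    have hg : g ∈ Subgroup.closure {x, y} := by rw [hgen]; exact Subgroup.mem_top g
    induction hg using Subgroup.closure_induction'' with
    | one => intro q hq; rwa [one_smul]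
    | mem w hw =>
      rcases hw with rfl | rfl
      · exact hPx
      · exact hPy
    | inv_mem w hw =>
      rcases hw with rfl | rfl
      · rw [xi]; exact hPx
      · rw [yi]
        intro q hq
        rw [mul_smul]
        exact hPy _ (hPy _ hq)
    | mul a b _ _ ha hb =>
      intro q hq
      rw [mul_smul]
      exact ha _ (hb _ hq)
  have huniv : ∀ q : G ⧸ H, q ∈ P := by
    intro q
    obtain ⟨g, rfl⟩ := QuotientGroup.mk_surjective q
    have := hall g p0 ((hP _).2 (Or.inl rfl))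
    have e : g • p0 = QuotientGroup.mk g := by
      show (QuotientGroup.mk (g * 1) : G ⧸ H) = _
      rw [mul_one]
    rwa [e] at this
  have cI : H.index ≤ 12 := by
    have h1 : Nat.card (G ⧸ H) = (Set.univ : Set (G ⧸ H)).ncard := (Set.ncard_univ _).symm
    rw [Subgroup.index, h1]
    calc (Set.univ : Set (G ⧸ H)).ncard ≤ (P : Set (G ⧸ H)).ncard :=
          Set.ncard_le_ncard (fun q _ => huniv q) P.finite_toSet
      _ = P.card := Set.ncard_coe_finset P
      _ ≤ 12 := by
        classical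
        have : P = ([p0, p1, p2, r0, r1, r2, s0, s1, s2, t0, t1, t2] : List (G ⧸ H)).toFinset := by
          ext q; rw [hP]; simp
        rw [this]
        exact List.toFinset_card_le _
  rw [← Subgroup.card_mul_index H]
  calc Nat.card H * H.index ≤ 5 * 12 := Nat.mul_le_mul cH cI
    _ = 60 := by norm_num


theorem gen_two {G : Type} [Group G] {a b c : G} (h : a * b * c = 1)
    (hgen : Subgroup.closure {a, b, c} = ⊤) : Subgroup.closure {a, b} = ⊤ := by
  rw [eq_top_iff, ← hgen, Subgroup.closure_le]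
  have ha : a ∈ Subgroup.closure {a, b} := Subgroup.subset_closure (by simp)
  have hb : b ∈ Subgroup.closure {a, b} := Subgroup.subset_closure (by simp)
  rintro w (rfl | rfl | rfl)
  · exact ha
  · exact hb
  · have e : w = (a * b)⁻¹ := (inv_eq_of_mul_eq_one_right h).symm
    show w ∈ Subgroup.closure {a, b}
    rw [e]
    exact inv_mem (mul_mem ha hb)

theorem bound {u : FreeGroup (Fin 3)} (hu : u ∈ N235) {n : ℕ} (h : Admissible 2 3 5 u n) : n = 5 := by
  obtain ⟨hn, a, b, c, hgen, ha, hb, hc, habc⟩ := h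
  rw [ev_eq_one ha hb hc hu, mul_one] at habc
  have hgen2 := gen_two habc hgen
  have hc' : c = (a * b)⁻¹ := (inv_eq_of_mul_eq_one_right habc).symm
  have hab : (a * b) ^ 5 = 1 := by
    have : ((a * b)⁻¹) ^ 5 = 1 := by rw [← hc', hc]
    rwa [inv_pow, inv_eq_one] at this
  have hcard := card_le (x := b) (y := a)
  have hba : (b * a) ^ 5 = 1 := by
    have e : b * a = a⁻¹ * (a * b) * (a⁻¹)⁻¹ := by group
    rw [e, conj_pow, hab]; group
  have h60 : Nat.card (alternatingGroup (Fin n)) ≤ 60 := card_le hgen2 ha hb hba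
  have hA : 2 * Nat.card (alternatingGroup (Fin n)) = n.factorial := by
    haveI : Nontrivial (Fin n) := Fin.nontrivial_iff_two_le.2 (by omega)
    rw [two_mul_nat_card_alternatingGroup, Nat.card_eq_fintype_card, Fintype.card_perm, Fintype.card_fin]
  have hn5 : n ≤ 5 := by
    by_contra hlt
    push Not at hlt
    have h1 : Nat.factorial 6 ≤ n.factorial := Nat.factorial_le hlt
    have h2 : Nat.factorial 6 = 720 := rfl
    omega
  -- exclude `n = 3, 4`
  have small : ∀ g : alternatingGroup (Fin n), n ≤ 4 → g ^ 5 = 1 → g = 1 := by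
    intro g h4 hg
    have h1 : orderOf g ∣ 5 := orderOf_dvd_of_pow_eq_one hg
    have h2 : orderOf g ∣ n.factorial := by
      rw [← hA]
      exact (orderOf_dvd_natCard g).trans (Dvd.intro_left 2 rfl)
    have h3 : orderOf g = 1 := by
      rcases (Nat.dvd_prime (by norm_num : Nat.Prime 5)).1 h1 with h | h
      · exact h
      · rw [h, Nat.Prime.dvd_factorial (by norm_num : Nat.Prime 5)] at h2
        omega
    exact orderOf_eq_one_iff.1 h3
  by_contra hne
  have h4 : n ≤ 4 := by omega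
  have hab1 : a * b = 1 := small _ h4 hab
  have hb' : b = a⁻¹ := (inv_eq_of_mul_eq_one_right hab1).symm
  have hb1 : b = 1 := by
    have h1 : b ^ 2 = 1 := by rw [hb', inv_pow, ha, inv_one]
    calc b = b ^ 3 * (b ^ 2)⁻¹ := by group
      _ = 1 := by rw [hb, h1]; group
  have ha1 : a = 1 := by rw [hb1, mul_one] at hab1; exact hab1
  rw [ha1, hb1] at hgen2
  have hbot : (⊤ : Subgroup (alternatingGroup (Fin n))) = ⊥ := by
    rw [← hgen2, Subgroup.closure_eq_bot_iff]
    simp
  have hc1 : Nat.card (alternatingGroup (Fin n)) = 1 := by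
    rw [← Subgroup.card_top, hbot, Subgroup.card_bot]
  rw [hc1] at hA
  have h6 : Nat.factorial 3 ≤ n.factorial := Nat.factorial_le hn
  have h7 : Nat.factorial 3 = 6 := rfl
  omega

def xi5 : alternatingGroup (Fin 5) := ⟨Equiv.swap 0 1 * Equiv.swap 2 3, by
  rw [Equiv.Perm.mem_alternatingGroup]; decide⟩
def eta5 : alternatingGroup (Fin 5) := ⟨Equiv.swap 0 2 * Equiv.swap 2 4, by
  rw [Equiv.Perm.mem_alternatingGroup]; decide⟩

theorem five {u : FreeGroup (Fin 3)} (hu : u ∈ N235) : Admissible 2 3 5 u 5 := by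
  have hx : xi5 ^ 2 = 1 := by decide +kernel
  have hy : eta5 ^ 3 = 1 := by decide +kernel
  have hz : ((xi5 * eta5)⁻¹) ^ 5 = 1 := by decide +kernel
  refine ⟨by norm_num, xi5, eta5, (xi5 * eta5)⁻¹, ?_, hx, hy, hz, ?_⟩
  · set K := Subgroup.closure {xi5, eta5, (xi5 * eta5)⁻¹} with hK
    have m1 : xi5 ∈ K := Subgroup.subset_closure (by simp)
    have m2 : eta5 ∈ K := Subgroup.subset_closure (by simp)
    have m3 : (xi5 * eta5)⁻¹ ∈ K := Subgroup.subset_closure (by simp)
    have o : ∀ (p : ℕ), p.Prime → ∀ g : alternatingGroup (Fin 5), g ∈ K → g ^ p = 1 → g ≠ 1 →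
        p ∣ Nat.card K := by
      intro p hp g hg h1 h2
      haveI := Fact.mk hp
      have h3 : orderOf (⟨g, hg⟩ : K) = p :=
        orderOf_eq_prime (Subtype.ext h1) (fun h => h2 (congrArg Subtype.val h))
      rw [← h3]
      exact orderOf_dvd_natCard _
    have d2 : 2 ∣ Nat.card K := o 2 (by norm_num) _ m1 hx (by decide +kernel)
    have d3 : 3 ∣ Nat.card K := o 3 (by norm_num) _ m2 hy (by decide +kernel)
    have d5 : 5 ∣ Nat.card K := o 5 (by norm_num) _ m3 hz (by decide +kernel)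
    have hA : 2 * Nat.card (alternatingGroup (Fin 5)) = Nat.factorial 5 := by
      rw [two_mul_nat_card_alternatingGroup, Nat.card_eq_fintype_card, Fintype.card_perm,
        Fintype.card_fin]
    have h120 : Nat.factorial 5 = 120 := rfl
    have hidx := Subgroup.card_mul_index K
    have hi : K.index = 1 ∨ K.index = 2 := by
      obtain ⟨c, hc⟩ : 30 ∣ Nat.card K := by omega
      have h1 : 30 * (c * K.index) = 60 := by rw [← mul_assoc, ← hc, hidx]; omega
      have h2 : c * K.index = 2 := by omega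
      have h3 : K.index ∣ 2 := Dvd.intro_left c h2
      rcases (Nat.dvd_prime (by norm_num : Nat.Prime 2)).1 h3 with h | h
      · exact Or.inl h
      · exact Or.inr h
    rcases hi with hi | hi
    · exact Subgroup.index_eq_one.1 hi
    · have hn : K.Normal := Subgroup.normal_of_index_eq_two hi
      rcases alternatingGroup.isSimpleGroup_five.eq_bot_or_eq_top_of_normal K hn with h | h
      · rw [h, Subgroup.card_bot] at d2
        omega
      · exact h
  · rw [ev_eq_one hx hy hz hu, mul_one, mul_inv_cancel]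

/-- the commutator `[x^2, y]` -/
def w0 : FreeGroup (Fin 3) :=
  FreeGroup.of 0 ^ 2 * FreeGroup.of 1 * (FreeGroup.of 0 ^ 2)⁻¹ * (FreeGroup.of 1)⁻¹

theorem w0_comm : w0 ∈ commutator (FreeGroup (Fin 3)) := by
  rw [commutator_def]
  exact Subgroup.commutator_mem_commutator (Subgroup.mem_top _) (Subgroup.mem_top _)

theorem w0_N : w0 ∈ N235 := by
  have h1 : (FreeGroup.of 0 ^ 2 : FreeGroup (Fin 3)) ∈ N235 :=
    Subgroup.subset_normalClosure (by simp)
  have hN : N235.Normal := Subgroup.normalClosure_normal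
  have e : w0 = FreeGroup.of 0 ^ 2 * (FreeGroup.of 1 * (FreeGroup.of 0 ^ 2)⁻¹ * (FreeGroup.of 1)⁻¹) := by
    rw [w0]; group
  rw [e]
  exact mul_mem h1 (hN.conj_mem _ (inv_mem h1) _)

theorem w0_inj : Function.Injective (fun k : ℕ => w0 ^ k) := by
  apply injective_pow_iff_not_isOfFinOrder.2
  intro hfin
  have h1 : w0 = 1 := by
    by_contra hne
    exact (not_isOfFinOrder_of_isMulTorsionFree hne) hfin
  have h2 := congrArg FreeGroup.toWord h1
  revert h2
  decide

/-- **Q2 is false.**  For `(p, q, r) = (2, 3, 5)` and every commutator word `u` in the normal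
closure of `x^2, y^3, z^5`, exactly one `n`, namely `n = 5`, is admissible.  There are infinitely
many such `u`.  In particular there are distinct primes `p, q, r` and a commutator word `u` for
which only finitely many `n` are admissible. -/
theorem result :
    (∀ u ∈ commutator (FreeGroup (Fin 3)), u ∈ N235 → ∀ n, Admissible 2 3 5 u n ↔ n = 5) ∧
    {u | u ∈ commutator (FreeGroup (Fin 3)) ∧ u ∈ N235}.Infinite ∧
    ∃ p q r : ℕ, p.Prime ∧ q.Prime ∧ r.Prime ∧ p ≠ q ∧ p ≠ r ∧ q ≠ r ∧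
      ∃ u ∈ commutator (FreeGroup (Fin 3)), {n | Admissible p q r u n}.Finite := by
  have main : ∀ u ∈ commutator (FreeGroup (Fin 3)), u ∈ N235 → ∀ n, Admissible 2 3 5 u n ↔ n = 5 :=
    fun u _ hu n => ⟨bound hu, fun h => h ▸ five hu⟩
  refine ⟨main, ?_, 2, 3, 5, by norm_num, by norm_num, by norm_num, by norm_num, by norm_num,
    by norm_num, 1, one_mem _, ?_⟩
  · apply Set.infinite_of_injective_forall_mem w0_inj
    intro k
    exact ⟨pow_mem w0_comm k, pow_mem w0_N k⟩
  · apply (Set.finite_singleton 5).subset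
    intro n hn
    exact (main 1 (one_mem _) (one_mem _) n).1 hn

end Pool.Agent.Results.MP_73c65d_al.OnlyFive
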